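import Pool.Agent.R674.Ce.Mob3

/-!
MP_b6945b_al (the Knörr–Robinson conjecture).

Notation (`Pool/Agent/Y63/KR/Defs.lean`, `Pool/Agent/Y63/KR/Levels.lean`,
`Pool/Agent/R674/Ce/Fin.lean`, `Pool/Agent/R674/Ce/Congr.lean`, `Pool/Agent/R674/Ce/Mob.lean`).
* `chi2 p H` is `χ₂(S, H)` for the poset `S` of nontrivial `p`-subgroups of `H`, `numDefectZero p H`
  is `z_p(H)`, and `KRC p H` says `χ₂(S, H) = k(H) - z_p(H)`;
* `krDiff p H = k(H) - χ₂(S, H) - z_p(H)`, that is `- χ̃₂(S, H) - z_p(H)`: the Knörr–Robinson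
  conjecture for `H` is `krDiff p H = 0`;
* `IsElAb p R`: the subgroup `R` is an elementary abelian `p`-group (possibly trivial);
* `mob p R = (-1)^r p^(r(r-1)/2)` for `|R| = p^r` (the Möbius function of the lattice of the
  subgroups of `R`);
* `G ⊓ Subgroup.centralizer R` is `C_G(R)`.
-/

open scoped Classical

namespace Pool.Agent.Results.MP_b6945b_al.MobiusFormula

open Pool.Agent.Y63.KR (KRC)
open Pool.Agent.R674.Ce

/-- Let `G` be a normal subgroup of the finite group `Γ` such that `Γ/G` is a `p`-group, and let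
`δ(H) = k(H) - χ₂(S, H) - z_p(H)` be the difference of the two sides of the Knörr–Robinson
conjecture for `H`. Then
`|Γ| δ(Γ) = ∑_R (-1)^r p^(r(r-1)/2) |C_G(R)| δ(C_G(R))`,
the sum over all elementary abelian `p`-subgroups `R` of `Γ` with `R ∩ G = 1`, `|R| = p^r` (`R = 1`
included, with the term `|G| δ(G)`). In particular, if the conjecture holds for all these groups
`C_G(R)`, then it holds for `Γ`. -/
theorem result (p : ℕ) [Fact p.Prime] (Γ : Type) [Group Γ] [Finite Γ] (G : Subgroup Γ) [G.Normal]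
    (hp : IsPGroup p (Γ ⧸ G)) :
    (Nat.card Γ : ℚ) * krDiff p Γ = (∑ᶠ R : Subgroup Γ, if IsElAb p R ∧ G ⊓ R = ⊥ then
      (mob p R : ℚ) * ((Nat.card ↥(G ⊓ Subgroup.centralizer (R : Set Γ)) : ℚ) *
        krDiff p ↥(G ⊓ Subgroup.centralizer (R : Set Γ))) else 0) ∧
    ((∀ R : Subgroup Γ, IsElAb p R → G ⊓ R = ⊥ →
      KRC p ↥(G ⊓ Subgroup.centralizer (R : Set Γ))) → KRC p Γ) := by
  have : Fintype (Subgroup Γ) := Fintype.ofFinite _
  have h1 : (Nat.card Γ : ℚ) * krDiff p Γ = ∑ᶠ R : Subgroup Γ, if IsElAb p R ∧ G ⊓ R = ⊥ then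
      (mob p R : ℚ) * ((Nat.card ↥(G ⊓ Subgroup.centralizer (R : Set Γ)) : ℚ) *
        krDiff p ↥(G ⊓ Subgroup.centralizer (R : Set Γ))) else 0 := by
    rw [krDiff_eq, defK_mob G hp, finsum_eq_sum_of_fintype, finsum_eq_sum_of_fintype]
    push_cast
    refine Finset.sum_congr rfl fun R _ => ?_
    split_ifs
    · rw [krDiff_eq]
    · rfl
  refine ⟨h1, fun h => ?_⟩
  rw [krc_iff_diff]
  have h2 : (Nat.card Γ : ℚ) ≠ 0 := by
    have : Nat.card Γ ≠ 0 := Nat.card_pos.ne'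
    exact_mod_cast this
  have h3 : (Nat.card Γ : ℚ) * krDiff p Γ = 0 := by
    rw [h1]
    refine finsum_eq_zero_of_forall_eq_zero fun R => ?_
    split_ifs with hR
    · rw [(krc_iff_diff _).mp (h R hR.1 hR.2), mul_zero, mul_zero]
    · rfl
  exact (mul_eq_zero.mp h3).resolve_left h2

end Pool.Agent.Results.MP_b6945b_al.MobiusFormula
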